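import Pool.Agent.H50.NC.Targets

/-!
# nck board, DB
-/

set_option autoImplicit false

namespace Pool.Agent.H11.NCK

open Pool.Agent.H48.ER Pool.Agent.H50.NC

theorem pf_DB (hSDX : T_SDX) (hTPA : T_TPA) (hPTA : T_PTA) (hPTF : T_PTF) : T_DB := by
  intro V G a b n P S X hE hX h0 h1 h2
  obtain ⟨T, hT⟩ := hSDX V G a b n P 1 hE
  have ha1 : a 1 ∈ S := by
    rcases h1.2 (a 1) (hE.1.a_mem 1) with h | h
    · exact absurd h (hE.1.a_ne_b 1 1)
    · exact h
  have ha1T : a 1 ∉ T := by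
    intro h
    exact (hT.ne (a 1) h (a 0) ⟨0, by decide, hE.1.a_mem 0⟩).2 (hE.1.a_adj (by decide))
  by_cases hTS : T ⊆ S
  · exact ⟨a, b, n, P, 1, T, hT, hTS, fun h => ha1T (h ▸ ha1)⟩
  · exfalso
    obtain ⟨t, p, R, htT, htS, hR, hp, hR1, hR2⟩ := hTPA V G a b n P 1 S T hT ha1 hTS
    have e1 : Ex G S (P 2) (a 2) (n 2) (b 2) :=
      ⟨P 2, hE.1.ip 2, subset_rfl, h2.1, fun v hv => h2.2 v hv⟩
    have o := hPTA V G a b n P 1 2 S X T R p (n 2) t (b 2) hX hT (by decide) ha1 htT htS hR hp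
      hR1 hR2 e1
    have e2 : Ex G S (P 2) (b 2) 0 (b 2) :=
      ⟨{b 2}, IP.zero _, by
        intro v hv
        rw [Set.mem_singleton_iff] at hv
        rw [hv]
        exact hE.1.b_mem 2, h2.1, fun v hv => Or.inl hv⟩
    have e := hPTF V G a b n P 1 2 0 S X T R p 0 t (b 2) hX hT (by decide) (by decide) (by decide)
      ha1 h0 htT htS hR hp hR1 hR2 e2 (fun h => hE.1.a_ne_b 2 2 h.symm)
    have e3 := hE.2 2
    rw [add_zero] at e
    exact (Nat.not_even_iff_odd.2 o) (e.add e3)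

end Pool.Agent.H11.NCK
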